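import Pool.Agent.Q35.ST.Main
import Pool.Agent.Q35.HB.Stm

/-! Job CON of the project HB of helper35: preparations. -/

set_option autoImplicit false

namespace Pool.Agent.Q175.HB

open MvPolynomial Pool.Agent.Q35.HB Pool.Agent.Q35.ST

section gen

variable {ι k K : Type} [Field k] [Field K] [Algebra k K]

theorem pdc (i j : ι) (f : MvPolynomial ι k) : pderiv i (pderiv j f) = pderiv j (pderiv i f) := by
  classical
  rcases eq_or_ne i j with rfl | hij
  · rfl
  refine MvPolynomial.ext _ _ fun m => ?_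
  rw [coeff_pderiv, coeff_pderiv, coeff_pderiv, coeff_pderiv]
  have h1 : (m + Finsupp.single i 1 : ι →₀ ℕ) j = m j := by
    rw [Finsupp.add_apply, Finsupp.single_eq_of_ne hij.symm, add_zero]
  have h2 : (m + Finsupp.single j 1 : ι →₀ ℕ) i = m i := by
    rw [Finsupp.add_apply, Finsupp.single_eq_of_ne hij, add_zero]
  rw [h1, h2, add_right_comm]
  ring

/-- the chain rule -/
theorem der_aeval [Fintype ι] [DecidableEq ι] (D : Derivation k K K) (w : ι → K) (f : MvPolynomial ι k) :
    D (aeval w f) = ∑ t, aeval w (pderiv t f) * D (w t) := by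
  induction f using MvPolynomial.induction_on with
  | C c =>
    rw [aeval_C, Derivation.map_algebraMap]
    simp
  | add p q hp hq =>
    rw [map_add, map_add, hp, hq, ← Finset.sum_add_distrib]
    refine Finset.sum_congr rfl fun t _ => ?_
    rw [map_add, map_add]
    ring
  | mul_X p s hp =>
    rw [map_mul, aeval_X, Derivation.leibniz, hp, smul_eq_mul, smul_eq_mul]
    have e2 : ∀ t, aeval w (pderiv t (p * X s)) = aeval w (pderiv t p) * w s +
        aeval w p * (if t = s then 1 else 0) := by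
      intro t
      rw [pderiv_mul, map_add, map_mul, map_mul, aeval_X, pderiv_X]
      congr 2
      by_cases hts : t = s
      · subst hts
        simp
      · rw [if_neg hts, Pi.single_eq_of_ne (Ne.symm hts), map_zero]
    simp only [e2, add_mul, Finset.sum_add_distrib]
    rw [add_comm]
    congr 1
    · rw [Finset.mul_sum]
      exact Finset.sum_congr rfl fun t _ => by ring
    · rw [Finset.sum_eq_single s]
      · rw [if_pos rfl]
        ring
      · intro t _ hts
        rw [if_neg hts]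
        ring
      · intro h
        exact absurd (Finset.mem_univ s) h

theorem aeval_mem_of_vars (x : ι → K) (L : IntermediateField k K) (f : MvPolynomial ι k)
    (h : ∀ t ∈ f.vars, x t ∈ L) : aeval x f ∈ L := by
  rw [aeval_def, eval₂_eq]
  refine sum_mem fun m hm => mul_mem (L.algebraMap_mem _) (prod_mem fun t ht => pow_mem (h t ?_) _)
  exact (mem_vars_iff_mem_support t).2 ⟨m, hm, ht⟩

theorem aeval_congr_vars {w x : ι → K} {f : MvPolynomial ι k} (h : ∀ t ∈ f.vars, w t = x t) :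
    aeval w f = aeval x f :=
  eval₂Hom_congr' rfl (fun t ht _ => h t ht) rfl

theorem not_dvd_novar {F G : MvPolynomial ι k} {s : ι} (hF : s ∈ F.vars) (hG : G ≠ 0) (hGs : s ∉ G.vars) :
    ¬ F ∣ G := by
  rintro ⟨h, rfl⟩
  rw [mem_vars_iff_degreeOf_ne_zero] at hF hGs
  rw [degreeOf_mul_eq (left_ne_zero_of_mul hG) (right_ne_zero_of_mul hG)] at hGs
  omega

/-- the coordinates of the generic point except one are algebraically independent -/
theorem gen_indep {F : MvPolynomial ι k} {x : ι → K} (hx : Gen F x) {s : ι} (hs : s ∈ F.vars) :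
    AlgebraicIndependent k (fun t : {t // t ≠ s} => x t) := by
  rw [algebraicIndependent_iff]
  intro q hq
  have h1 : aeval x (rename (Subtype.val : {t // t ≠ s} → ι) q) = 0 := by
    rw [aeval_rename]
    exact hq
  rw [hx.ker] at h1
  by_contra hne
  refine not_dvd_novar hs (G := rename (Subtype.val : {t // t ≠ s} → ι) q) ?_ ?_ h1
  · rw [Ne, (rename_injective _ Subtype.val_injective).eq_iff' (map_zero _)]
    exact hne
  · intro hmem
    obtain ⟨t, -, ht⟩ := mem_vars_rename _ _ hmem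
    exact t.2 ht

end gen

section mh

variable {κ : Type} {n : κ → ℕ} {k : Type} [Field k]

theorem MH0_novar {T : Set κ} {u : κ → ℕ} {f : MvPolynomial (Pc n) k} (hf : MH T u f) {l : κ} (hl : l ∈ T)
    (hu : u l = 0) (c : Fin (n l + 1)) : (⟨l, c⟩ : Pc n) ∉ f.vars := by
  intro h
  obtain ⟨m, hm, hmc⟩ := (mem_vars_iff_mem_support _).1 h
  have h1 := hf m hm l hl
  rw [hu] at h1
  have h2 := (Finset.sum_eq_zero_iff.1 h1) c (Finset.mem_univ c)
  exact (Finsupp.mem_support_iff.1 hmc) h2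

theorem MH2_pd2 [DecidableEq κ] {F : MvPolynomial (Pc n) k} (hF : MH Set.univ (fun _ => 2) F) (l : κ)
    (a b : Fin (n l + 1)) :
    MH Set.univ (fun l' => 2 - (if l' = l then 1 else 0) - (if l' = l then 1 else 0))
      (pderiv (⟨l, a⟩ : Pc n) (pderiv ⟨l, b⟩ F)) :=
  (hF.pderiv (⟨l, b⟩ : Pc n)).pderiv (⟨l, a⟩ : Pc n)

theorem pd2_novar [DecidableEq κ] {F : MvPolynomial (Pc n) k} (hF : MH Set.univ (fun _ => 2) F) (l : κ)
    (a b c : Fin (n l + 1)) : (⟨l, c⟩ : Pc n) ∉ (pderiv (⟨l, a⟩ : Pc n) (pderiv ⟨l, b⟩ F)).vars :=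
  MH0_novar (MH2_pd2 hF l a b) (Set.mem_univ l) (by simp) c

theorem hm_novar [DecidableEq κ] {F : MvPolynomial (Pc n) k} (hF : MH Set.univ (fun _ => 2) F) (l : κ)
    (a b c : Fin (n l + 1)) : (⟨l, c⟩ : Pc n) ∉ (hm F (⟨l, a⟩ : Pc n) ⟨l, b⟩).vars := by
  unfold hm
  rw [sq]
  refine MH0_novar (T := Set.univ) (u := fun l' => (2 - (if l' = l then 1 else 0) - (if l' = l then 1 else 0)) +
    (2 - (if l' = l then 1 else 0) - (if l' = l then 1 else 0))) ?_ (Set.mem_univ l) (by simp) c
  exact ((MH2_pd2 hF l a b).mul (MH2_pd2 hF l a b)).sub ((MH2_pd2 hF l a a).mul (MH2_pd2 hF l b b))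

variable {K : Type} [Field K] [Algebra k K]

theorem euler1 [DecidableEq κ] {F : MvPolynomial (Pc n) k} (hF : MH Set.univ (fun _ => 2) F) (l : κ)
    (a : Fin (n l + 1)) (w : Pc n → K) :
    aeval w (pderiv (⟨l, a⟩ : Pc n) F) =
      ∑ b, w ⟨l, b⟩ * aeval w (pderiv (⟨l, b⟩ : Pc n) (pderiv ⟨l, a⟩ F)) := by
  have h1 := (hF.pderiv (⟨l, a⟩ : Pc n)).EU (Set.mem_univ l)
  have h2 := congrArg (aeval w) h1
  unfold Pool.Agent.Q35.ST.EU at h2
  rw [map_sum, map_mul] at h2
  simp only [if_true] at h2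
  have h3 : (aeval w) (C (((2 - 1 : ℕ) : k)) : MvPolynomial (Pc n) k) = (1 : K) := by
    rw [aeval_C]
    norm_num
  rw [h3, one_mul] at h2
  rw [← h2]
  refine Finset.sum_congr rfl fun b _ => ?_
  rw [map_mul, aeval_X]

theorem euler0 [DecidableEq κ] {F : MvPolynomial (Pc n) k} (hF : MH Set.univ (fun _ => 2) F) (l : κ)
    (w : Pc n → K) :
    2 * aeval w F = ∑ a, w ⟨l, a⟩ * aeval w (pderiv (⟨l, a⟩ : Pc n) F) := by
  have h1 := hF.EU (Set.mem_univ l)
  have h2 := congrArg (aeval w) h1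
  unfold Pool.Agent.Q35.ST.EU at h2
  rw [map_sum, map_mul] at h2
  have h3 : (aeval w) (C (((2 : ℕ) : k)) : MvPolynomial (Pc n) k) = (2 : K) := by
    rw [aeval_C, map_natCast]
    norm_num
  rw [h3] at h2
  rw [← h2]
  refine Finset.sum_congr rfl fun b _ => ?_
  rw [map_mul, aeval_X]

end mh

end Pool.Agent.Q175.HB
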