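import Pool.Agent.Q175.HB.Con0

/-! Job CON of the project HB of helper35. -/

set_option autoImplicit false

namespace Pool.Agent.Q175.HB

open MvPolynomial Pool.Agent.Q35.HB Pool.Agent.Q35.ST

theorem sum_split {N : Type} [Fintype N] [DecidableEq N] {M : Type} [AddCommMonoid M] {i j : N} (hij : i ≠ j)
    (f : N → M) : ∑ a, f a = f i + (f j + ∑ a ∈ (Finset.univ.erase i).erase j, f a) := by
  rw [Finset.add_sum_erase _ _ (Finset.mem_erase.2 ⟨hij.symm, Finset.mem_univ j⟩),
    Finset.add_sum_erase _ _ (Finset.mem_univ i)]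

set_option maxHeartbeats 4000000 in
/-- JOB HB-CON -/
theorem con (hR : S_RAD) (hD : S_DEXT) : S_CON := by
  intro κ _ _ n k _ _ F hF hn hsm hirr hgc K _ _ x hx l i j hij
  classical
  have hK0 : CharZero K := charZero_of_injective_algebraMap (algebraMap k K).injective
  obtain ⟨si, hsi⟩ : ∃ si : Pc n, si = ⟨l, i⟩ := ⟨_, rfl⟩
  obtain ⟨sj, hsj⟩ : ∃ sj : Pc n, sj = ⟨l, j⟩ := ⟨_, rfl⟩
  have hsij : si ≠ sj := by
    rw [hsi, hsj]
    intro h
    apply hij
    simpa using h
  obtain ⟨c, hc⟩ : ∃ c : Fin (n l + 1) → Fin (n l + 1) → K,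
      c = fun a b => aeval x (pderiv (⟨l, a⟩ : Pc n) (pderiv ⟨l, b⟩ F)) := ⟨_, rfl⟩
  have hcs : ∀ a b, c a b = c b a := by
    intro a b
    rw [hc]
    simp only
    rw [pdc]
  -- points which agree with `x` outside the factor `l`
  have hcw : ∀ w : Pc n → K, (∀ t : Pc n, t.1 ≠ l → w t = x t) → ∀ a b,
      aeval w (pderiv (⟨l, a⟩ : Pc n) (pderiv ⟨l, b⟩ F)) = c a b := by
    intro w hw a b
    rw [hc]
    refine aeval_congr_vars fun t ht => ?_
    refine hw t ?_
    rintro h
    obtain ⟨l', d⟩ := t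
    simp only at h
    subst h
    exact pd2_novar hF _ a b d ht
  have hFa : ∀ w : Pc n → K, (∀ t : Pc n, t.1 ≠ l → w t = x t) → ∀ a,
      aeval w (pderiv (⟨l, a⟩ : Pc n) F) = ∑ b, w ⟨l, b⟩ * c b a := by
    intro w hw a
    rw [euler1 hF]
    exact Finset.sum_congr rfl fun b _ => by rw [hcw w hw]
  obtain ⟨R, hRd⟩ : ∃ R : Finset (Fin (n l + 1)), R = (Finset.univ.erase i).erase j := ⟨_, rfl⟩
  have hRm : ∀ a ∈ R, a ≠ i ∧ a ≠ j := by
    intro a ha
    rw [hRd, Finset.mem_erase, Finset.mem_erase] at ha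
    exact ⟨ha.2.1, ha.1⟩
  obtain ⟨δ, hδ⟩ : ∃ δ : K, δ = ∑ b ∈ R, x ⟨l, b⟩ * c b i := ⟨_, rfl⟩
  obtain ⟨ε, hε⟩ : ∃ ε : K, ε = ∑ b ∈ R, x ⟨l, b⟩ * c b j := ⟨_, rfl⟩
  obtain ⟨ζ, hζ⟩ : ∃ ζ : K, ζ = ∑ a ∈ R, x ⟨l, a⟩ * ∑ b ∈ R, x ⟨l, b⟩ * c b a := ⟨_, rfl⟩
  -- points which differ from `x` in two coordinates only
  have hW : ∀ w : Pc n → K, (∀ t : Pc n, t ≠ si → t ≠ sj → w t = x t) →
      aeval w (pderiv si F) = c i i * w si + c i j * w sj + δ ∧
      aeval w (pderiv sj F) = c i j * w si + c j j * w sj + ε ∧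
      2 * aeval w F = c i i * w si ^ 2 + 2 * c i j * w si * w sj + c j j * w sj ^ 2 +
        2 * δ * w si + 2 * ε * w sj + ζ := by
    intro w hw
    have hw1 : ∀ t : Pc n, t.1 ≠ l → w t = x t := by
      intro t ht
      refine hw t ?_ ?_
      · rintro rfl
        rw [hsi] at ht
        exact ht rfl
      · rintro rfl
        rw [hsj] at ht
        exact ht rfl
    have hwR : ∀ a ∈ R, w ⟨l, a⟩ = x ⟨l, a⟩ := by
      intro a ha
      have := hRm a ha
      refine hw _ ?_ ?_
      · rw [hsi]
        intro h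
        exact this.1 (by simpa using h)
      · rw [hsj]
        intro h
        exact this.2 (by simpa using h)
    have hg : ∀ a, aeval w (pderiv (⟨l, a⟩ : Pc n) F) =
        w si * c i a + (w sj * c j a + ∑ b ∈ R, x ⟨l, b⟩ * c b a) := by
      intro a
      rw [hFa w hw1, sum_split hij, ← hRd, hsi, hsj]
      congr 2
      exact Finset.sum_congr rfl fun b hb => by rw [hwR b hb]
    have h1 := hg i
    have h2 := hg j
    rw [← hsi, ← hδ] at h1
    rw [← hsj, ← hε] at h2
    rw [hcs j i] at h1
    refine ⟨by rw [h1]; ring, by rw [h2]; ring, ?_⟩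
    rw [euler0 hF l w, sum_split hij, ← hRd, ← hsi, ← hsj, h1, h2]
    have h3 : ∑ a ∈ R, w ⟨l, a⟩ * aeval w (pderiv (⟨l, a⟩ : Pc n) F) = w si * δ + w sj * ε + ζ := by
      rw [hδ, hε, hζ, Finset.mul_sum, Finset.mul_sum, ← Finset.sum_add_distrib, ← Finset.sum_add_distrib]
      refine Finset.sum_congr rfl fun a ha => ?_
      rw [hwR a ha, hg a, hcs i a, hcs j a]
      ring
    rw [h3]
    ring
  -- the subfield
  obtain ⟨L, hL⟩ : ∃ L, L = Lo k x (⟨l, i⟩ : Pc n) ⟨l, j⟩ := ⟨_, rfl⟩
  have hxL : ∀ t : Pc n, t ≠ si → t ≠ sj → x t ∈ L := by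
    intro t h1 h2
    rw [hL]
    unfold Lo
    rw [hsi] at h1
    rw [hsj] at h2
    exact IntermediateField.subset_adjoin k _ ⟨t, ⟨h1, h2⟩, rfl⟩
  have hcL : ∀ a b, c a b ∈ L := by
    intro a b
    rw [hc]
    refine aeval_mem_of_vars x L _ fun t ht => ?_
    refine hxL t ?_ ?_
    · rintro rfl
      rw [hsi] at ht
      exact pd2_novar hF _ a b _ ht
    · rintro rfl
      rw [hsj] at ht
      exact pd2_novar hF _ a b _ ht
  have hxR : ∀ a ∈ R, x ⟨l, a⟩ ∈ L := by
    intro a ha
    have := hRm a ha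
    refine hxL _ ?_ ?_
    · rw [hsi]
      intro h
      exact this.1 (by simpa using h)
    · rw [hsj]
      intro h
      exact this.2 (by simpa using h)
  have hδL : δ ∈ L := by rw [hδ]; exact sum_mem fun b hb => mul_mem (hxR b hb) (hcL b i)
  have hεL : ε ∈ L := by rw [hε]; exact sum_mem fun b hb => mul_mem (hxR b hb) (hcL b j)
  have hζL : ζ ∈ L := by
    rw [hζ]
    exact sum_mem fun a ha => mul_mem (hxR a ha) (sum_mem fun b hb => mul_mem (hxR b hb) (hcL b a))
  -- nonvanishing
  have hFi : si ∈ F.vars := by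
    by_contra h
    apply (hgc l i).1
    rw [hsi] at h
    rw [pderiv_eq_zero_of_notMem_vars h, map_zero]
  have hcii : c i i ≠ 0 := by
    intro h
    rw [hc] at h
    simp only at h
    rw [hx.ker] at h
    refine not_dvd_novar hFi (hgc l i).1 ?_ h
    rw [hsi]
    exact pd2_novar hF l i i i
  have hA0 : c i j ^ 2 - c i i * c j j ≠ 0 := by
    intro h
    have h1 : aeval x (hm F (⟨l, i⟩ : Pc n) ⟨l, j⟩) = 0 := by
      unfold hm
      rw [map_sub, map_pow, map_mul]
      rw [hc] at h
      exact h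
    rw [hx.ker] at h1
    refine not_dvd_novar hFi ((hgc l i).2 j hij.symm) ?_ h1
    rw [hsi]
    exact hm_novar hF l i j i
  have hF0 : aeval x F = 0 := (hx.ker F).2 dvd_rfl
  obtain ⟨hx1, hx2, hx3⟩ := hW x fun t _ _ => rfl
  rw [hF0, mul_zero] at hx3
  obtain ⟨v, hv⟩ : ∃ v : K, v = aeval x (pderiv si F) := ⟨_, rfl⟩
  rw [← hv] at hx1
  -- independence
  have hind := gen_indep hx hFi
  rw [← hL]
  refine ⟨c i j ^ 2 - c i i * c j j, 2 * (c i j * δ - c i i * ε), δ ^ 2 - c i i * ζ, x sj, v,
    sub_mem (pow_mem (hcL i j) 2) (mul_mem (hcL i i) (hcL j j)),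
    mul_mem (by
      have := L.algebraMap_mem (2 : k)
      rwa [map_ofNat] at this) (sub_mem (mul_mem (hcL i j) hδL) (mul_mem (hcL i i) hεL)),
    sub_mem (pow_mem hδL 2) (mul_mem (hcL i i) hζL), ?_, ?_, ?_, ?_⟩
  · -- the discriminant
    intro hdisc
    obtain ⟨A, hA⟩ : ∃ A, A = c i j ^ 2 - c i i * c j j := ⟨_, rfl⟩
    rw [← hA] at hA0 hdisc
    obtain ⟨q, hq⟩ : ∃ q : K, q = -(c i j * δ - c i i * ε) / A := ⟨_, rfl⟩
    obtain ⟨p, hp⟩ : ∃ p : K, p = -(c i j * q + δ) / c i i := ⟨_, rfl⟩
    obtain ⟨w, hw⟩ : ∃ w : Pc n → K, w = fun t => if t = si then p else if t = sj then q else x t := ⟨_, rfl⟩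
    have hwsi : w si = p := by rw [hw]; simp
    have hwsj : w sj = q := by rw [hw]; simp [hsij.symm]
    have hwo : ∀ t, t ≠ si → t ≠ sj → w t = x t := by
      intro t h1 h2
      rw [hw]
      simp [h1, h2]
    obtain ⟨w1, w2, w3⟩ := hW w hwo
    rw [hwsi, hwsj] at w1 w2 w3
    have hcp : c i i * p = -(c i j * q + δ) := by
      rw [hp]
      field_simp
    have hAq : A * q = -(c i j * δ - c i i * ε) := by
      rw [hq]
      field_simp
    have z1 : aeval w (pderiv si F) = 0 := by
      rw [w1, hcp]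
      ring
    have z2 : aeval w (pderiv sj F) = 0 := by
      rw [w2]
      have : c i i * (c i j * p + c j j * q + ε) = 0 := by
        rw [hA] at hAq
        linear_combination (c i j) * hcp - hAq
      exact (mul_eq_zero.1 this).resolve_left hcii
    have z3 : aeval w F = 0 := by
      have h1 : A * c i i * (c i i * p ^ 2 + 2 * c i j * p * q + c j j * q ^ 2 + 2 * δ * p + 2 * ε * q + ζ) = 0 := by
        have h2 : A * c i i * c j j = A * (c i j ^ 2 - A) := by
          rw [hA]
          ring
        linear_combination (A * (c i i * p + c i j * q + δ)) * hcp - (A * q + (c i j * δ - c i i * ε)) * hAq +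
          (1 / 4) * hdisc + q ^ 2 * h2
      have h2 := (mul_eq_zero.1 h1).resolve_left (mul_ne_zero hA0 hcii)
      rw [h2] at w3
      exact (mul_eq_zero.1 w3).resolve_left two_ne_zero
    -- the other derivatives
    have z4 : ∀ a, a ≠ i → a ≠ j → aeval w (pderiv (⟨l, a⟩ : Pc n) F) = 0 := by
      intro a hai haj
      have hai' : (⟨l, a⟩ : Pc n) ≠ si := by
        rw [hsi]
        intro h
        exact hai (by simpa using h)
      have haj' : (⟨l, a⟩ : Pc n) ≠ sj := by
        rw [hsj]
        intro h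
        exact haj (by simpa using h)
      have hind2 : AlgebraicIndependent k (fun t : {t : Pc n // t ≠ si ∧ t ≠ sj} => x t.1) :=
        hind.comp (fun t : {t : Pc n // t ≠ si ∧ t ≠ sj} => (⟨t.1, t.2.1⟩ : {t // t ≠ si})) (by
          intro t t' h
          exact Subtype.ext (congrArg (fun u : {t // t ≠ si} => (u : Pc n)) h))
      obtain ⟨D, hDx⟩ := hD {t : Pc n // t ≠ si ∧ t ≠ sj} k K (fun t => x t.1)
        (fun t => if t.1 = (⟨l, a⟩ : Pc n) then 1 else 0) (fun f hf => by
          rw [(algebraicIndependent_iff.1 hind2) f hf]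
          simp)
      have h1 := der_aeval D w F
      rw [z3, map_zero, Finset.sum_eq_single (⟨l, a⟩ : Pc n)] at h1
      · have h2 := hDx ⟨⟨l, a⟩, hai', haj'⟩
        simp only [if_true] at h2
        rw [hwo _ hai' haj', h2, mul_one] at h1
        exact h1.symm
      · intro t _ ht
        by_cases h3 : t = si
        · rw [h3, z1, zero_mul]
        by_cases h4 : t = sj
        · rw [h4, z2, zero_mul]
        have h2 := hDx ⟨t, h3, h4⟩
        simp only [if_neg ht] at h2
        rw [hwo _ h3 h4, h2, mul_zero]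
      · intro h
        exact absurd (Finset.mem_univ _) h
    have z5 : ∀ a, aeval w (pderiv (⟨l, a⟩ : Pc n) F) = 0 := by
      intro a
      by_cases h1 : a = i
      · rw [h1, ← hsi]
        exact z1
      by_cases h2 : a = j
      · rw [h2, ← hsj]
        exact z2
      exact z4 a h1 h2
    have hw1 : ∀ t : Pc n, t.1 ≠ l → w t = x t := by
      intro t ht
      refine hwo t ?_ ?_
      · rintro rfl
        rw [hsi] at ht
        exact ht rfl
      · rintro rfl
        rw [hsj] at ht
        exact ht rfl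
    -- the radical
    have hxne : ∀ t : Pc n, t ≠ si → x t ≠ 0 := by
      intro t ht h
      rw [← aeval_X (R := k) x t, hx.ker] at h
      refine not_dvd_novar hFi (X_ne_zero t) ?_ h
      rw [vars_X, Finset.mem_singleton]
      exact fun h => ht h.symm
    obtain ⟨v0, hv0⟩ : ∃ v0 : Fin (n l + 1) → AlgebraicClosure K, v0 = fun a => algebraMap K (AlgebraicClosure K) (w ⟨l, a⟩) := ⟨_, rfl⟩
    obtain ⟨a0, ha0i, ha0j⟩ : ∃ a : Fin (n l + 1), a ≠ i ∧ a ≠ j := by
      by_contra hcon
      push Not at hcon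
      have h1 : (Finset.univ : Finset (Fin (n l + 1))) ⊆ {i, j} := by
        intro a _
        by_cases h2 : a = i
        · simp [h2]
        · simp [hcon a h2]
      have h2 := Finset.card_le_card h1
      rw [Finset.card_univ, Fintype.card_fin] at h2
      have h3 : ({i, j} : Finset (Fin (n l + 1))).card ≤ 2 := Finset.card_le_two
      have := hn l
      omega
    have hv0ne : v0 ≠ 0 := by
      intro h
      have h1 := congrFun h a0
      rw [hv0] at h1
      simp only [Pi.zero_apply] at h1
      have ha0i' : (⟨l, a0⟩ : Pc n) ≠ si := by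
        rw [hsi]
        intro h
        exact ha0i (by simpa using h)
      have ha0j' : (⟨l, a0⟩ : Pc n) ≠ sj := by
        rw [hsj]
        intro h
        exact ha0j (by simpa using h)
      rw [hwo _ ha0i' ha0j'] at h1
      exact hxne _ ha0i' ((map_eq_zero _).1 h1)
    obtain ⟨I, hI⟩ : ∃ I : Finset (Pc n), I = Finset.univ.filter (fun t => t.1 ≠ l) := ⟨_, rfl⟩
    have hIl : ∀ t ∈ I, t.1 ≠ l := by
      intro t ht
      rw [hI, Finset.mem_filter] at ht
      exact ht.2
    have hIsi : ∀ t ∈ I, t ≠ si := by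
      intro t ht h
      have := hIl t ht
      rw [h, hsi] at this
      exact this rfl
    have hindI : AlgebraicIndependent k (fun t : I => algebraMap K (AlgebraicClosure K) (x t)) := by
      have h1 : AlgebraicIndependent k (fun t : I => x t) :=
        hind.comp (fun t : I => (⟨t.1, hIsi t.1 t.2⟩ : {t // t ≠ si})) (by
          intro t t' h
          exact Subtype.ext (congrArg (fun u : {t // t ≠ si} => (u : Pc n)) h))
      exact h1.map' (f := IsScalarTower.toAlgHom k K (AlgebraicClosure K)) (algebraMap K (AlgebraicClosure K)).injective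
    have hcard : Fintype.card (Pc n) = I.card + (n l + 1) := by
      have h1 := Finset.card_filter_add_card_filter_not (s := (Finset.univ : Finset (Pc n))) (fun t => t.1 ≠ l)
      rw [← hI] at h1
      have h2 : (Finset.univ.filter (fun t : Pc n => ¬ t.1 ≠ l)) =
          (Finset.univ : Finset (Fin (n l + 1))).map ⟨fun a => (⟨l, a⟩ : Pc n), fun a b h => by simpa using h⟩ := by
        ext t
        simp only [Finset.mem_filter, Finset.mem_univ, true_and, not_not, Finset.mem_map, Function.Embedding.coeFn_mk]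
        constructor
        · intro h
          obtain ⟨l', d⟩ := t
          simp only at h
          subst h
          exact ⟨d, rfl⟩
        · rintro ⟨a, rfl⟩
          rfl
      rw [h2, Finset.card_map, Finset.card_univ, Fintype.card_fin, Finset.card_univ] at h1
      exact h1.symm
    have hrad := hR κ n k (AlgebraicClosure K) F hF (smth_ext hsm (algebraMap k (AlgebraicClosure K))) l
      (fun t => algebraMap K (AlgebraicClosure K) (x t)) (fun m hm => ⟨0, by
        rw [Ne, map_eq_zero]
        refine hxne _ ?_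
        rw [hsi]
        intro h
        exact hm (congrArg Sigma.fst h)⟩) I hIl hindI
      (Submodule.span (AlgebraicClosure K) {v0}) (fun u hu a => by
        obtain ⟨r, rfl⟩ := Submodule.mem_span_singleton.1 hu
        rw [euler1 hF]
        have e1 : ∀ b, upd (fun t => algebraMap K (AlgebraicClosure K) (x t)) l (r • v0) (⟨l, b⟩ : Pc n) =
            r * algebraMap K (AlgebraicClosure K) (w ⟨l, b⟩) := by
          intro b
          unfold upd
          rw [Function.update_self, hv0]
          rfl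
        have e2 : ∀ b, aeval (upd (fun t => algebraMap K (AlgebraicClosure K) (x t)) l (r • v0))
            (pderiv (⟨l, b⟩ : Pc n) (pderiv ⟨l, a⟩ F)) = algebraMap K (AlgebraicClosure K) (c b a) := by
          intro b
          rw [aeval_congr_vars (x := fun t => algebraMap K (AlgebraicClosure K) (x t)) (fun t ht => ?_)]
          · have := aeval_algebraMap_apply (AlgebraicClosure K) x (pderiv (⟨l, b⟩ : Pc n) (pderiv ⟨l, a⟩ F))
            rw [hc]
            exact this
          · have hne : t.1 ≠ l := by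
              rintro h
              obtain ⟨l', d⟩ := t
              simp only at h
              subst h
              exact pd2_novar hF _ b a d ht
            unfold upd
            rw [Function.update_of_ne hne]
        have e3 : ∑ b, upd (fun t => algebraMap K (AlgebraicClosure K) (x t)) l (r • v0) (⟨l, b⟩ : Pc n) *
            aeval (upd (fun t => algebraMap K (AlgebraicClosure K) (x t)) l (r • v0))
              (pderiv (⟨l, b⟩ : Pc n) (pderiv ⟨l, a⟩ F)) =
            r * algebraMap K (AlgebraicClosure K) (∑ b, w ⟨l, b⟩ * c b a) := by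
          rw [map_sum, Finset.mul_sum]
          refine Finset.sum_congr rfl fun b _ => ?_
          rw [e1, e2, map_mul]
          ring
        rw [e3, ← hFa w hw1, z5, map_zero, mul_zero])
    rw [finrank_span_singleton hv0ne, hcard] at hrad
    omega
  · have h1 := hind.transcendental_adjoin (s := {t | (t : Pc n) ≠ sj}) (i := ⟨sj, hsij.symm⟩) (by simp)
    have h2 := IntermediateField.transcendental_adjoin_iff.2 h1
    have h3 : ((fun t : {t // t ≠ si} => x t) '' {t | (t : Pc n) ≠ sj}) =
        x '' {t | t ≠ (⟨l, i⟩ : Pc n) ∧ t ≠ ⟨l, j⟩} := by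
      ext z
      constructor
      · rintro ⟨t, ht, rfl⟩
        refine ⟨t, ⟨?_, ?_⟩, rfl⟩
        · rw [← hsi]
          exact t.2
        · rw [← hsj]
          exact ht
      · rintro ⟨t, ⟨ht1, ht2⟩, rfl⟩
        rw [← hsi] at ht1
        rw [← hsj] at ht2
        exact ⟨⟨t, ht1⟩, ht2, rfl⟩
    rw [h3] at h2
    rw [hL]
    exact h2
  · -- the equation
    rw [hx1]
    linear_combination (-c i i) * hx3
  · -- generation
    rw [eq_top_iff, ← hx.top, IntermediateField.adjoin_le_iff]
    rintro _ ⟨t, rfl⟩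
    obtain ⟨M, hM⟩ : ∃ M, M = IntermediateField.adjoin k ((L : Set K) ∪ {x sj, v}) := ⟨_, rfl⟩
    have hLM : ∀ z ∈ L, z ∈ M := by
      intro z hz
      rw [hM]
      exact IntermediateField.subset_adjoin k _ (Or.inl hz)
    have hjM : x sj ∈ M := by
      rw [hM]
      exact IntermediateField.subset_adjoin k _ (Or.inr (by simp))
    have hvM : v ∈ M := by
      rw [hM]
      exact IntermediateField.subset_adjoin k _ (Or.inr (by simp))
    rw [← hM]
    show x t ∈ M
    by_cases h1 : t = sj
    · rw [h1]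
      exact hjM
    by_cases h2 : t = si
    · rw [h2]
      have h3 : x si = (v - c i j * x sj - δ) / c i i := by
        rw [eq_div_iff hcii, hx1]
        ring
      rw [h3]
      exact div_mem (sub_mem (sub_mem hvM (mul_mem (hLM _ (hcL i j)) hjM)) (hLM _ hδL)) (hLM _ (hcL i i))
    · exact hLM _ (hxL t h2 h1)

end Pool.Agent.Q175.HB
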