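import Pool.Agent.Q175.HB.Emb0
import Pool.Agent.Q35.HB.Stm

/-! Job EMB of the project HB of helper35. -/

set_option autoImplicit false

namespace Pool.Agent.Q175.HB

open MvPolynomial Pool.Agent.Q35.HB

/-- JOB HB-EMB -/
theorem emb : S_EMB := by
  intro ι k Ω _ _ _ _ _ _ _ _ F π i j ξ a hij hF hπirr hi hj _ hdiv hF0 hF1 htr _ _ ha
  exact emb0 ι k Ω F π i j ξ a hij hF hπirr hi hj hdiv hF0 hF1 htr ha

end Pool.Agent.Q175.HB
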