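import Pool.Agent.Q175.HB.Hen

/-! Job EMB of the project HB of helper35, in a form which does not need its definitions. -/

set_option autoImplicit false

namespace Pool.Agent.Q175.HB

open MvPolynomial

section deg

variable {σ R : Type} [Field R]

theorem tdp_lt (A : MvPolynomial σ R) (j : σ) (h : pderiv j A ≠ 0) :
    (pderiv j A).totalDegree < A.totalDegree := by
  classical
  rw [MvPolynomial.totalDegree]
  have hne : (MvPolynomial.pderiv j A).support.Nonempty := MvPolynomial.support_nonempty.2 h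
  rw [Finset.sup_lt_iff]
  · intro s hs
    have h1 : (MvPolynomial.pderiv j A).coeff s ≠ 0 := MvPolynomial.mem_support_iff.1 hs
    rw [MvPolynomial.coeff_pderiv] at h1
    have h2 : A.coeff (s + Finsupp.single j 1) ≠ 0 := fun h0 => h1 (by rw [h0, zero_mul])
    have h3 := MvPolynomial.le_totalDegree (MvPolynomial.mem_support_iff.2 h2)
    rw [Finsupp.sum_add_index' (fun _ => rfl) (fun _ _ _ => rfl), Finsupp.sum_single_index rfl]
      at h3
    omega
  · obtain ⟨s, hs⟩ := hne
    have h1 : (MvPolynomial.pderiv j A).coeff s ≠ 0 := MvPolynomial.mem_support_iff.1 hs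
    rw [MvPolynomial.coeff_pderiv] at h1
    have h2 : A.coeff (s + Finsupp.single j 1) ≠ 0 := fun h0 => h1 (by rw [h0, zero_mul])
    have h3 := MvPolynomial.le_totalDegree (MvPolynomial.mem_support_iff.2 h2)
    rw [Finsupp.sum_add_index' (fun _ => rfl) (fun _ _ _ => rfl), Finsupp.sum_single_index rfl]
      at h3
    show 0 < _
    omega

theorem notMem_vars_pderiv {A : MvPolynomial σ R} {s : σ} (hs : s ∉ A.vars) (t : σ) :
    s ∉ (pderiv t A).vars := by
  intro h
  obtain ⟨d, hd, hsd⟩ := (mem_vars_iff_mem_support s).1 h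
  rw [mem_support_iff, coeff_pderiv] at hd
  have h2 : A.coeff (d + Finsupp.single t 1) ≠ 0 := fun h0 => hd (by rw [h0, zero_mul])
  refine hs ((mem_vars_iff_mem_support s).2 ⟨d + Finsupp.single t 1, mem_support_iff.2 h2, ?_⟩)
  rw [Finsupp.mem_support_iff] at hsd ⊢
  rw [Finsupp.add_apply]
  omega

/-- a nonzero derivative of a polynomial along a constant vector is not divisible by it -/
theorem not_dvd_der [Fintype σ] (A : MvPolynomial σ R) (a : σ → R)
    (h : ∑ t, C (a t) * pderiv t A ≠ 0) : ¬ A ∣ ∑ t, C (a t) * pderiv t A := by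
  classical
  intro hd
  have h1 := totalDegree_le_of_dvd_of_isDomain hd h
  have h2 : (∑ t, C (a t) * pderiv t A).totalDegree < A.totalDegree ∨ A.totalDegree = 0 := by
    by_cases h0 : A.totalDegree = 0
    · exact Or.inr h0
    left
    refine lt_of_le_of_lt (totalDegree_finsetSum _ _) ?_
    rw [Finset.sup_lt_iff (by exact Nat.pos_of_ne_zero h0)]
    intro t _
    refine lt_of_le_of_lt (totalDegree_mul _ _) ?_
    rw [totalDegree_C, zero_add]
    by_cases h3 : pderiv t A = 0
    · rw [h3, totalDegree_zero]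
      exact Nat.pos_of_ne_zero h0
    · exact tdp_lt A t h3
  rcases h2 with h2 | h2
  · omega
  · apply h
    rw [totalDegree_eq_zero_iff_eq_C.1 h2]
    simp

end deg

variable {ι k Ω : Type} [Field k] [Field Ω] [Algebra k Ω]

/-- the substitution of power series -/
noncomputable def sb (y : ι → PowerSeries Ω) : MvPolynomial ι k →+* PowerSeries Ω :=
  eval₂Hom ((PowerSeries.C (R := Ω)).comp (algebraMap k Ω)) y

theorem sb_C (y : ι → PowerSeries Ω) (c : k) : sb y (C c) = PowerSeries.C (algebraMap k Ω c) := by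
  unfold sb
  rw [coe_eval₂Hom, eval₂_C]
  rfl

theorem sb_X (y : ι → PowerSeries Ω) (t : ι) : sb (k := k) y (X t) = y t := by
  unfold sb
  rw [coe_eval₂Hom, eval₂_X]

theorem sb_const {y : ι → PowerSeries Ω} {ξ : ι → Ω} (h : ∀ t, PowerSeries.constantCoeff (y t) = ξ t)
    (f : MvPolynomial ι k) : PowerSeries.constantCoeff (sb y f) = aeval ξ f := by
  have e : (PowerSeries.constantCoeff (R := Ω)).comp (sb (k := k) y) = (aeval ξ : MvPolynomial ι k →ₐ[k] Ω).toRingHom := by
    refine MvPolynomial.ringHom_ext (fun c => ?_) fun t => ?_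
    · rw [RingHom.comp_apply, sb_C]
      simp
    · rw [RingHom.comp_apply, sb_X, h]
      simp
  exact RingHom.congr_fun e f

theorem sb_coeff1 [Fintype ι] [DecidableEq ι] {y : ι → PowerSeries Ω} {ξ : ι → Ω}
    (h : ∀ t, PowerSeries.constantCoeff (y t) = ξ t) (f : MvPolynomial ι k) :
    PowerSeries.coeff 1 (sb y f) = ∑ t, PowerSeries.coeff 1 (y t) * aeval ξ (pderiv t f) := by
  induction f using MvPolynomial.induction_on with
  | C c =>
    rw [sb_C, PowerSeries.coeff_C, if_neg one_ne_zero]
    simp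
  | add p q hp hq =>
    rw [map_add, map_add, hp, hq, ← Finset.sum_add_distrib]
    refine Finset.sum_congr rfl fun t _ => ?_
    rw [map_add, map_add]
    ring
  | mul_X p s hp =>
    have e1 : PowerSeries.coeff 1 (sb y (p * X s)) =
        PowerSeries.coeff 1 (sb y p) * ξ s + aeval ξ p * PowerSeries.coeff 1 (y s) := by
      rw [map_mul, sb_X, PowerSeries.coeff_mul, Finset.Nat.antidiagonal_succ]
      simp only [Finset.Nat.antidiagonal_zero, Finset.map_singleton, Finset.sum_cons, Finset.sum_singleton,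
        Function.Embedding.prodMap, Function.Embedding.coeFn_mk, Prod.map]
      rw [PowerSeries.coeff_zero_eq_constantCoeff_apply, sb_const h]
      simp only [Function.Embedding.refl_apply]
      have : PowerSeries.coeff 0 (y s) = ξ s := by
        rw [PowerSeries.coeff_zero_eq_constantCoeff_apply, h]
      rw [this]
      show aeval ξ p * PowerSeries.coeff 1 (y s) + PowerSeries.coeff 1 (sb y p) * ξ s = _
      ring
    rw [e1, hp]
    have e2 : ∀ t, aeval ξ (pderiv t (p * X s)) = aeval ξ (pderiv t p) * ξ s +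
        aeval ξ p * (if t = s then 1 else 0) := by
      intro t
      rw [pderiv_mul, map_add, map_mul, map_mul, aeval_X, pderiv_X]
      congr 2
      by_cases hts : t = s
      · subst hts
        simp
      · rw [if_neg hts, Pi.single_eq_of_ne (Ne.symm hts), map_zero]
    simp only [e2]
    simp only [mul_add, Finset.sum_add_distrib]
    congr 1
    · rw [Finset.sum_mul]
      exact Finset.sum_congr rfl fun t _ => by ring
    · rw [Finset.sum_eq_single s]
      · rw [if_pos rfl]
        ring
      · intro t _ hts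
        rw [if_neg hts]
        ring
      · intro h
        exact absurd (Finset.mem_univ s) h

/-- the ring homomorphism which evaluates a polynomial in one variable over the polynomials in
the other variables -/
theorem exists_split {σ : Type} [DecidableEq σ] (j : σ) :
    ∃ e : MvPolynomial σ k ≃ₐ[k] Polynomial (MvPolynomial {t // t ≠ j} k),
      (∀ c : MvPolynomial {t // t ≠ j} k, e.symm (Polynomial.C c) = rename Subtype.val c) ∧
      e.symm Polynomial.X = X j := by
  refine ⟨(renameEquiv k (Equiv.optionSubtypeNe j).symm).trans (optionEquivLeft k _), fun c => ?_, ?_⟩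
  · rw [AlgEquiv.symm_trans_apply]
    induction c using MvPolynomial.induction_on with
    | C c =>
      rw [optionEquivLeft_symm_C_C]
      simp
    | add p q hp hq => rw [Polynomial.C_add, map_add, map_add, hp, hq, map_add]
    | mul_X p s hp =>
      rw [Polynomial.C_mul, map_mul, map_mul, hp, optionEquivLeft_symm_C_X]
      simp
  · rw [AlgEquiv.symm_trans_apply, optionEquivLeft_symm_X]
    simp

/-- a polynomial without the variable `i` which vanishes at `ξ` is divisible by `π` -/
theorem trans_dvd [DecidableEq ι] {π : MvPolynomial ι k} {i j : ι} (hij : i ≠ j) {ξ : ι → Ω}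
    (hπ : ∀ f : MvPolynomial ι k, i ∉ f.vars → j ∉ f.vars → aeval ξ f = 0 → π ∣ f)
    (htr : Transcendental (IntermediateField.adjoin k (ξ '' {t | t ≠ i ∧ t ≠ j})) (ξ j))
    (g : MvPolynomial ι k) (hg : i ∉ g.vars) (h0 : aeval ξ g = 0) : π ∣ g := by
  classical
  set L := IntermediateField.adjoin k (ξ '' {t | t ≠ i ∧ t ≠ j}) with hL
  obtain ⟨q, hq⟩ := exists_rename_eq_of_vars_subset_range g (Subtype.val : {t // t ≠ i} → ι)
    Subtype.val_injective (fun t ht => ⟨⟨t, fun h => hg (h ▸ ht)⟩, rfl⟩)
  obtain ⟨j', hj'⟩ : ∃ j' : {t // t ≠ i}, j' = ⟨j, hij.symm⟩ := ⟨_, rfl⟩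
  obtain ⟨e, he1, he2⟩ := exists_split (k := k) j'
  obtain ⟨P, hP⟩ : ∃ P, P = e q := ⟨_, rfl⟩
  obtain ⟨v, hv⟩ : ∃ v : {s : {t // t ≠ i} // s ≠ j'} → ι, v = fun s => s.1.1 := ⟨_, rfl⟩
  have hj'v : (j' : ι) = j := by rw [hj']
  have hvi : ∀ s, v s ≠ i := by
    intro s
    rw [hv]
    exact s.1.2
  have hvj : ∀ s, v s ≠ j := by
    intro s h
    rw [hv] at h
    exact s.2 (Subtype.ext (h.trans hj'v.symm))
  -- the formula for `g`
  have key : ∀ P : Polynomial (MvPolynomial {s : {t // t ≠ i} // s ≠ j'} k),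
      rename (Subtype.val : {t // t ≠ i} → ι) (e.symm P) =
        Polynomial.eval₂ (rename v : _ →ₐ[k] MvPolynomial ι k).toRingHom (X j) P := by
    intro P
    have e1 : ((rename (Subtype.val : {t // t ≠ i} → ι) : _ →ₐ[k] MvPolynomial ι k).toRingHom.comp
        (e.symm : _ ≃ₐ[k] _).toAlgHom.toRingHom) =
        Polynomial.eval₂RingHom (rename v : _ →ₐ[k] MvPolynomial ι k).toRingHom (X j) := by
      refine Polynomial.ringHom_ext (fun c => ?_) ?_
      · rw [Polynomial.coe_eval₂RingHom, Polynomial.eval₂_C]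
        show rename (Subtype.val : {t // t ≠ i} → ι) (e.symm (Polynomial.C c)) = rename v c
        rw [he1, rename_rename]
        rw [hv]
        rfl
      · rw [Polynomial.coe_eval₂RingHom, Polynomial.eval₂_X]
        show rename (Subtype.val : {t // t ≠ i} → ι) (e.symm Polynomial.X) = X j
        rw [he2, rename_X, hj']
    exact RingHom.congr_fun e1 P
  have hgP : g = Polynomial.eval₂ (rename v : _ →ₐ[k] MvPolynomial ι k).toRingHom (X j) P := by
    rw [← key, hP, AlgEquiv.symm_apply_apply, hq]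
  -- evaluation
  obtain ⟨θ, hθ⟩ : ∃ θ : MvPolynomial {s : {t // t ≠ i} // s ≠ j'} k →ₐ[k] L, θ =
      aeval (fun s => (⟨ξ (v s), IntermediateField.subset_adjoin k _ ⟨v s, ⟨hvi s, hvj s⟩, rfl⟩⟩ : L)) := ⟨_, rfl⟩
  have hθv : ∀ c, ((θ c : L) : Ω) = aeval ξ (rename v c) := by
    intro c
    rw [aeval_rename, hθ]
    have e1 : L.val.comp (aeval (fun s => (⟨ξ (v s), IntermediateField.subset_adjoin k _ ⟨v s, ⟨hvi s, hvj s⟩, rfl⟩⟩ : L))) =
        (aeval (ξ ∘ v) : MvPolynomial {s : {t // t ≠ i} // s ≠ j'} k →ₐ[k] Ω) := by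
      refine MvPolynomial.algHom_ext fun s => ?_
      simp
    exact AlgHom.congr_fun e1 c
  have h1 : Polynomial.aeval (ξ j) (P.map θ.toRingHom) = 0 := by
    rw [← h0, hgP, Polynomial.aeval_def, Polynomial.eval₂_map]
    have e1 := Polynomial.hom_eval₂ P (rename v : _ →ₐ[k] MvPolynomial ι k).toRingHom
      (aeval ξ : MvPolynomial ι k →ₐ[k] Ω).toRingHom (X j)
    have e2 : (aeval ξ : MvPolynomial ι k →ₐ[k] Ω).toRingHom (X j) = ξ j := by
      show aeval ξ (X j) = ξ j
      rw [aeval_X]
    rw [e2] at e1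
    have e3 : (aeval ξ : MvPolynomial ι k →ₐ[k] Ω)
        (Polynomial.eval₂ (rename v : _ →ₐ[k] MvPolynomial ι k).toRingHom (X j) P) =
        (aeval ξ : MvPolynomial ι k →ₐ[k] Ω).toRingHom
        (Polynomial.eval₂ (rename v : _ →ₐ[k] MvPolynomial ι k).toRingHom (X j) P) := rfl
    rw [e3, e1]
    congr 1
    refine RingHom.ext fun c => ?_
    exact hθv c
  have h2 := (transcendental_iff.1 htr) _ h1
  -- all coefficients are divisible
  rw [hgP, Polynomial.eval₂_eq_sum_range]
  refine Finset.dvd_sum fun m _ => ?_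
  refine Dvd.dvd.mul_right ?_ _
  have h3 : θ (P.coeff m) = 0 := by
    have := congrArg (fun Q => Polynomial.coeff Q m) h2
    simpa using this
  refine hπ _ ?_ ?_ ?_
  · intro hmem
    have := vars_rename v (P.coeff m) hmem
    rw [Finset.mem_image] at this
    obtain ⟨s, -, hs⟩ := this
    exact hvi s hs
  · intro hmem
    have := vars_rename v (P.coeff m) hmem
    rw [Finset.mem_image] at this
    obtain ⟨s, -, hs⟩ := this
    exact hvj s hs
  · have := hθv (P.coeff m)
    rw [h3] at this
    exact this.symm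

/-- the substitution is injective on the polynomials without the variable `i` -/
theorem ker_noi [Fintype ι] [DecidableEq ι] {π : MvPolynomial ι k} (hirr : Irreducible π) {i j : ι} (hij : i ≠ j)
    {ξ : ι → Ω} (hπi : i ∉ π.vars) (hπj : j ∉ π.vars)
    (hπ : ∀ f : MvPolynomial ι k, i ∉ f.vars → j ∉ f.vars → aeval ξ f = 0 → π ∣ f)
    (htr : Transcendental (IntermediateField.adjoin k (ξ '' {t | t ≠ i ∧ t ≠ j})) (ξ j))
    {a : ι → k} (ha : ∑ t, C (a t) * pderiv t π ≠ 0)
    {y : ι → PowerSeries Ω} (hy0 : ∀ t, PowerSeries.constantCoeff (y t) = ξ t)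
    (hy1 : ∀ t, t ≠ i → PowerSeries.coeff 1 (y t) = algebraMap k Ω (a t)) :
    ∀ (N : ℕ) (g : MvPolynomial ι k), g.totalDegree ≤ N → i ∉ g.vars → g ≠ 0 → sb y g ≠ 0 := by
  -- the derivative of a polynomial without `i`
  have hdi : ∀ f : MvPolynomial ι k, i ∉ f.vars → pderiv i f = 0 := fun f hf => pderiv_eq_zero_of_notMem_vars hf
  have hπ1 : sb y π ≠ 0 := by
    intro h
    have h1 := sb_coeff1 (k := k) hy0 π
    rw [h, map_zero] at h1
    have h2 : ∑ t, PowerSeries.coeff 1 (y t) * aeval ξ (pderiv t π) = aeval ξ (∑ t, C (a t) * pderiv t π) := by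
      rw [map_sum]
      refine Finset.sum_congr rfl fun t _ => ?_
      rw [map_mul, aeval_C]
      by_cases ht : t = i
      · rw [ht, hdi π hπi, map_zero, mul_zero, mul_zero]
      · rw [hy1 t ht]
    rw [h2] at h1
    have hnov : ∀ s, s ∉ π.vars → s ∉ (∑ t, C (a t) * pderiv t π).vars := by
      intro s hs hmem
      rw [mem_vars_iff_degreeOf_ne_zero] at hmem
      apply hmem
      have h3 : ∀ t, degreeOf s (C (a t) * pderiv t π) = 0 := by
        intro t
        refine Nat.eq_zero_of_le_zero ((degreeOf_C_mul_le _ _ _).trans ?_)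
        have h4 : s ∉ (pderiv t π).vars := notMem_vars_pderiv hs t
        rw [mem_vars_iff_degreeOf_ne_zero, not_not] at h4
        exact h4.le
      refine Nat.eq_zero_of_le_zero ((degreeOf_sum_le _ _ _).trans ?_)
      exact Finset.sup_le fun t _ => (h3 t).le
    exact not_dvd_der π a ha (hπ _ (hnov i hπi) (hnov j hπj) h1.symm)
  intro N
  induction N with
  | zero =>
    intro g hd hgi hg0 h
    have hdvd := trans_dvd hij hπ htr g hgi (by rw [← sb_const hy0, h, map_zero])
    have h1 := totalDegree_le_of_dvd_of_isDomain hdvd hg0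
    have h2 : π.totalDegree = 0 := by omega
    have h3 := totalDegree_eq_zero_iff_eq_C.1 h2
    rw [h3] at ha
    simp at ha
  | succ N ih =>
    intro g hd hgi hg0 h
    obtain ⟨g', hg'⟩ := trans_dvd hij hπ htr g hgi (by rw [← sb_const hy0, h, map_zero])
    have hg'0 : g' ≠ 0 := by
      rintro rfl
      rw [mul_zero] at hg'
      exact hg0 hg'
    have h1 : g.totalDegree = π.totalDegree + g'.totalDegree := by
      rw [hg', totalDegree_mul_of_isDomain hirr.ne_zero hg'0]
    have h2 : π.totalDegree ≠ 0 := by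
      intro h2
      have h3 := totalDegree_eq_zero_iff_eq_C.1 h2
      rw [h3] at ha
      simp at ha
    have h3 : i ∉ g'.vars := by
      rw [mem_vars_iff_degreeOf_ne_zero, not_not] at hgi ⊢
      rw [hg', degreeOf_mul_eq hirr.ne_zero hg'0] at hgi
      omega
    have h4 := ih g' (by omega) h3 hg'0
    rw [hg', map_mul] at h
    rcases mul_eq_zero.1 h with h5 | h5
    · exact hπ1 h5
    · exact h4 h5

/-- the kernel of a substitution which is injective on the polynomials without the variable `i` -/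
theorem ker_eq [DecidableEq ι] {F : MvPolynomial ι k} (hF : Irreducible F) (i : ι) {y : ι → PowerSeries Ω}
    (hinj : ∀ g : MvPolynomial ι k, i ∉ g.vars → g ≠ 0 → sb y g ≠ 0) (hF0 : sb y F = 0)
    (f : MvPolynomial ι k) (hf : sb y f = 0) : F ∣ f := by
  classical
  obtain ⟨e, he1, he2⟩ := exists_split (k := k) i
  obtain ⟨A, hA⟩ : ∃ A : Type, A = FractionRing (PowerSeries Ω) := ⟨_, rfl⟩
  have hvar : ∀ c : MvPolynomial {t // t ≠ i} k, i ∉ (rename (Subtype.val : {t // t ≠ i} → ι) c).vars := by
    intro c hmem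
    have := vars_rename _ c hmem
    rw [Finset.mem_image] at this
    obtain ⟨s, -, hs⟩ := this
    exact s.2 hs
  -- the homomorphisms
  set ψ' : Polynomial (MvPolynomial {t // t ≠ i} k) →+* PowerSeries Ω := (sb y).comp e.symm.toAlgHom.toRingHom with hψ'
  have hψ'e : ∀ g : MvPolynomial ι k, ψ' (e g) = sb y g := by
    intro g
    rw [hψ']
    show sb y (e.symm (e g)) = _
    rw [AlgEquiv.symm_apply_apply]
  have hψ'C : ∀ c, ψ' (Polynomial.C c) = sb y (rename Subtype.val c) := by
    intro c
    rw [hψ']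
    show sb y (e.symm (Polynomial.C c)) = _
    rw [he1]
  set θ0 : MvPolynomial {t // t ≠ i} k →+* FractionRing (PowerSeries Ω) :=
    (algebraMap (PowerSeries Ω) (FractionRing (PowerSeries Ω))).comp (ψ'.comp Polynomial.C) with hθ0
  have hθ0inj : Function.Injective θ0 := by
    rw [injective_iff_map_eq_zero]
    intro c hc
    by_contra hne
    have h1 : algebraMap (PowerSeries Ω) (FractionRing (PowerSeries Ω)) (ψ' (Polynomial.C c)) = 0 := hc
    rw [IsFractionRing.to_map_eq_zero_iff, hψ'C] at h1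
    refine hinj _ (hvar c) ?_ h1
    rw [Ne, (rename_injective _ Subtype.val_injective).eq_iff' (map_zero _)]
    exact hne
  set θ : FractionRing (MvPolynomial {t // t ≠ i} k) →+* FractionRing (PowerSeries Ω) :=
    IsFractionRing.lift hθ0inj with hθ
  have hθa : ∀ c, θ (algebraMap _ _ c) = θ0 c := fun c => IsFractionRing.lift_algebraMap hθ0inj c
  set z : FractionRing (PowerSeries Ω) := algebraMap _ _ (ψ' Polynomial.X) with hz
  have hev : ∀ g : Polynomial (MvPolynomial {t // t ≠ i} k),
      Polynomial.eval₂ θ z (g.map (algebraMap _ (FractionRing (MvPolynomial {t // t ≠ i} k)))) =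
        algebraMap _ _ (ψ' g) := by
    intro g
    rw [Polynomial.eval₂_map]
    have e1 : (Polynomial.eval₂RingHom (θ.comp (algebraMap _ (FractionRing (MvPolynomial {t // t ≠ i} k)))) z) =
        (algebraMap (PowerSeries Ω) (FractionRing (PowerSeries Ω))).comp ψ' := by
      refine Polynomial.ringHom_ext (fun c => ?_) ?_
      · rw [Polynomial.coe_eval₂RingHom, Polynomial.eval₂_C]
        show θ (algebraMap _ _ c) = _
        rw [hθa]
        rfl
      · rw [Polynomial.coe_eval₂RingHom, Polynomial.eval₂_X]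
        rfl
    exact RingHom.congr_fun e1 g
  -- the polynomial `F`
  have hirr : Irreducible (e F) := (MulEquiv.irreducible_iff e.toMulEquiv).2 hF
  have hdeg : (e F).natDegree ≠ 0 := by
    intro h
    obtain ⟨c, hc⟩ := Polynomial.natDegree_eq_zero.1 h
    have h1 : F = rename Subtype.val c := by
      rw [← he1, hc, AlgEquiv.symm_apply_apply]
    have h2 := hinj (rename Subtype.val c) (hvar c) (by rw [← h1]; exact hF.ne_zero)
    rw [← h1] at h2
    exact h2 hF0
  have hprim : (e F).IsPrimitive := hirr.isPrimitive hdeg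
  have hirrK := (hprim.irreducible_iff_irreducible_map_fraction_map
    (K := FractionRing (MvPolynomial {t // t ≠ i} k))).1 hirr
  have hdvd : (e F).map (algebraMap _ (FractionRing (MvPolynomial {t // t ≠ i} k))) ∣
      (e f).map (algebraMap _ (FractionRing (MvPolynomial {t // t ≠ i} k))) := by
    by_contra hnd
    obtain ⟨u, v, huv⟩ := (hirrK.coprime_iff_not_dvd).2 hnd
    have h1 := congrArg (Polynomial.eval₂ θ z) huv
    rw [Polynomial.eval₂_add, Polynomial.eval₂_mul, Polynomial.eval₂_mul, hev, hev, hψ'e, hψ'e, hF0, hf,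
      Polynomial.eval₂_one, map_zero, mul_zero, mul_zero, add_zero] at h1
    exact zero_ne_one h1
  have h1 := hprim.dvd_of_fraction_map_dvd_fraction_map hdvd
  exact (map_dvd_iff e).1 h1

/-- substitution as a polynomial in the variable `i` -/
theorem sb_poly [DecidableEq ι] (i : ι) (y : ι → PowerSeries Ω) :
    ∃ Φ : MvPolynomial ι k →+* Polynomial (PowerSeries Ω),
      (∀ f, Polynomial.derivative (Φ f) = Φ (pderiv i f)) ∧
      ∀ (f : MvPolynomial ι k) (z : PowerSeries Ω), (Φ f).eval z = sb (Function.update y i z) f := by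
  obtain ⟨Φ, hΦ⟩ : ∃ Φ : MvPolynomial ι k →+* Polynomial (PowerSeries Ω), Φ =
      eval₂Hom ((Polynomial.C).comp ((PowerSeries.C (R := Ω)).comp (algebraMap k Ω)))
        (fun t => if t = i then Polynomial.X else Polynomial.C (y t)) := ⟨_, rfl⟩
  have hC : ∀ c, Φ (C c) = Polynomial.C (PowerSeries.C (algebraMap k Ω c)) := by
    intro c
    rw [hΦ, coe_eval₂Hom, eval₂_C]
    rfl
  have hX : ∀ t, Φ (X t) = if t = i then Polynomial.X else Polynomial.C (y t) := by
    intro t
    rw [hΦ, coe_eval₂Hom, eval₂_X]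
  refine ⟨Φ, fun f => ?_, fun f z => ?_⟩
  · induction f using MvPolynomial.induction_on with
    | C c => rw [hC, pderiv_C, map_zero, Polynomial.derivative_C]
    | add p q hp hq => rw [map_add, map_add, map_add, map_add, hp, hq]
    | mul_X p s hp =>
      rw [map_mul, Polynomial.derivative_mul, hp, pderiv_mul, map_add, map_mul, map_mul]
      congr 2
      rw [hX]
      by_cases hs : s = i
      · subst hs
        rw [if_pos rfl, Polynomial.derivative_X, pderiv_X_self, map_one]
      · rw [if_neg hs, Polynomial.derivative_C, pderiv_X_of_ne hs, map_zero]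
  · have e1 : (Polynomial.evalRingHom z).comp Φ = sb (k := k) (Function.update y i z) := by
      refine MvPolynomial.ringHom_ext (fun c => ?_) fun t => ?_
      · rw [RingHom.comp_apply, hC, sb_C, Polynomial.coe_evalRingHom, Polynomial.eval_C]
      · rw [RingHom.comp_apply, hX, sb_X, Polynomial.coe_evalRingHom]
        by_cases ht : t = i
        · subst ht
          rw [if_pos rfl, Polynomial.eval_X, Function.update_self]
        · rw [if_neg ht, Polynomial.eval_C, Function.update_of_ne ht]
    exact RingHom.congr_fun e1 f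

/-- JOB HB-EMB (with the definition of `Lo` unfolded) -/
theorem emb0 (ι k Ω : Type) [Fintype ι] [DecidableEq ι] [Field k] [Field Ω] [Algebra k Ω]
    (F π : MvPolynomial ι k) (i j : ι) (ξ : ι → Ω) (a : ι → k) (hij : i ≠ j) (hF : Irreducible F)
    (hπirr : Irreducible π) (hπi : i ∉ π.vars) (hπj : j ∉ π.vars)
    (hπ : ∀ f : MvPolynomial ι k, i ∉ f.vars → j ∉ f.vars → aeval ξ f = 0 → π ∣ f)
    (hF0 : aeval ξ F = 0) (hF1 : aeval ξ (pderiv i F) ≠ 0)
    (htr : Transcendental (IntermediateField.adjoin k (ξ '' {t | t ≠ i ∧ t ≠ j})) (ξ j))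
    (ha : ∑ t, C (a t) * pderiv t π ≠ 0) :
    ∃ ψ : MvPolynomial ι k →+* PowerSeries Ω,
      (∀ c, ψ (C c) = PowerSeries.C (algebraMap k Ω c)) ∧
      (∀ t, PowerSeries.constantCoeff (ψ (X t)) = ξ t) ∧
      (∀ t, t ≠ i → ψ (X t) = PowerSeries.C (ξ t) +
        PowerSeries.C (algebraMap k Ω (a t)) * PowerSeries.X) ∧
      ∀ f, ψ f = 0 ↔ F ∣ f := by
  obtain ⟨y, hy⟩ : ∃ y : ι → PowerSeries Ω, y = fun t => PowerSeries.C (ξ t) +
        PowerSeries.C (algebraMap k Ω (a t)) * PowerSeries.X := ⟨_, rfl⟩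
  have hyc : ∀ t, PowerSeries.constantCoeff (y t) = ξ t := by
    intro t
    rw [hy]
    simp
  obtain ⟨Φ, hΦ1, hΦ2⟩ := sb_poly (k := k) i y
  have hup : ∀ z : PowerSeries Ω, PowerSeries.constantCoeff z = ξ i →
      ∀ t, PowerSeries.constantCoeff (Function.update y i z t) = ξ t := by
    intro z hz t
    by_cases ht : t = i
    · subst ht
      rw [Function.update_self, hz]
    · rw [Function.update_of_ne ht, hyc]
  have hCi : PowerSeries.constantCoeff (PowerSeries.C (ξ i)) = ξ i := PowerSeries.constantCoeff_C _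
  obtain ⟨z, hz0, hz1⟩ := hensP (Φ F) (PowerSeries.C (ξ i))
    (by rw [hΦ2, sb_const (hup _ hCi), hF0])
    (by rw [hΦ1, hΦ2, sb_const (hup _ hCi)]; exact hF1)
  rw [hCi] at hz1
  rw [hΦ2] at hz0
  have hy0 := hup z hz1
  have hy1 : ∀ t, t ≠ i → PowerSeries.coeff 1 (Function.update y i z t) = algebraMap k Ω (a t) := by
    intro t ht
    rw [Function.update_of_ne ht, hy]
    simp only [map_add, PowerSeries.coeff_C_mul, PowerSeries.coeff_one_X, mul_one, PowerSeries.coeff_C]
    rw [if_neg one_ne_zero, zero_add]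
  refine ⟨sb (Function.update y i z), fun c => sb_C _ c, fun t => ?_, fun t ht => ?_, fun f => ⟨fun hf => ?_, ?_⟩⟩
  · rw [sb_X, hy0]
  · rw [sb_X, Function.update_of_ne ht, hy]
  · refine ker_eq hF i (fun g hg hg0 => ?_) hz0 f hf
    exact ker_noi hπirr hij hπi hπj hπ htr ha hy0 hy1 g.totalDegree g le_rfl hg hg0
  · rintro ⟨g, rfl⟩
    rw [map_mul, hz0, zero_mul]

end Pool.Agent.Q175.HB
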