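import Mathlib

/-! Hensel's lemma for a simple zero of a (not necessarily monic) polynomial over a ring of power
series; the trick is that of `Pool.Agent.Q34.TL.Hen` (helper34). -/

set_option autoImplicit false

namespace Pool.Agent.Q175.HB

open Polynomial

variable {κ : Type} [Field κ]

/-- a polynomial with one zero which is a unit -/
theorem hen_unitP (K : Polynomial (PowerSeries κ)) {ε : PowerSeries κ}
    (hε : PowerSeries.constantCoeff ε = 0) : ∃ u : PowerSeries κ, 1 + u + ε * u ^ 2 * K.eval u = 0 := by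
  set m := K.natDegree with hm
  set W : Polynomial (PowerSeries κ) := X ^ (m + 1) + C ε * K.reflect m with hW
  have hWd : W.degree < ((m + 2 : ℕ) : WithBot ℕ) := by
    rw [hW]
    refine (degree_add_le _ _).trans_lt (max_lt ?_ ?_)
    · refine (degree_X_pow_le _).trans_lt ?_
      exact_mod_cast Nat.lt_succ_self _
    · refine (degree_le_natDegree).trans_lt ?_
      have h1 : (C ε * K.reflect m).natDegree ≤ m := by
        refine (natDegree_C_mul_le _ _).trans ?_
        refine natDegree_reflect_le.trans ?_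
        rw [← hm, max_self]
      exact_mod_cast lt_of_le_of_lt h1 (by omega)
  set V : Polynomial (PowerSeries κ) := X ^ (m + 2) + W with hV
  have hmon : V.Monic := monic_X_pow_add hWd
  have e1 : V.eval (-1) = ε * (K.reflect m).eval (-1) := by
    rw [hV, hW]
    simp only [eval_add, eval_mul, eval_pow, eval_X, eval_C]
    rw [pow_succ (-1 : PowerSeries κ) (m + 1)]
    ring
  have e2 : V.derivative.eval (-1) = (-1) ^ (m + 1) + ε * (K.reflect m).derivative.eval (-1) := by
    rw [hV, hW]
    simp only [derivative_add, derivative_X_pow, derivative_mul, derivative_C, zero_mul, zero_add,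
      eval_add, eval_mul, eval_pow, eval_X, eval_C, Nat.add_sub_cancel]
    have h1 : m + 2 - 1 = m + 1 := by omega
    rw [h1]
    push_cast
    rw [pow_succ (-1 : PowerSeries κ) m]
    ring
  obtain ⟨v, hv, hv1⟩ := HenselianRing.is_henselian (I := Ideal.span {(PowerSeries.X : PowerSeries κ)})
    V hmon (-1) (by
    rw [e1, Ideal.mem_span_singleton, PowerSeries.X_dvd_iff, map_mul, hε, zero_mul]) (by
    refine IsUnit.map _ ?_
    rw [e2, PowerSeries.isUnit_iff_constantCoeff, isUnit_iff_ne_zero, map_add, map_mul, hε, zero_mul,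
      add_zero, map_pow, map_neg, map_one]
    exact pow_ne_zero _ (neg_ne_zero.2 one_ne_zero))
  have hvu : IsUnit v := by
    rw [Ideal.mem_span_singleton, PowerSeries.X_dvd_iff, map_sub, map_neg, map_one, sub_eq_zero] at hv1
    rw [PowerSeries.isUnit_iff_constantCoeff, isUnit_iff_ne_zero, hv1]
    exact neg_ne_zero.2 one_ne_zero
  obtain ⟨v', rfl⟩ := hvu
  refine ⟨((v'⁻¹ : (PowerSeries κ)ˣ) : PowerSeries κ), ?_⟩
  have hinv : Invertible ((v'⁻¹ : (PowerSeries κ)ˣ) : PowerSeries κ) := ⟨(v' : PowerSeries κ), Units.mul_inv v', Units.inv_mul v'⟩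
  have h4 := eval₂_reflect_mul_pow (RingHom.id (PowerSeries κ)) ((v'⁻¹ : (PowerSeries κ)ˣ) : PowerSeries κ) m K (by rw [← hm])
  have h5 : ⅟((v'⁻¹ : (PowerSeries κ)ˣ) : PowerSeries κ) = (v' : PowerSeries κ) :=
    invOf_eq_left_inv (Units.mul_inv v')
  rw [h5] at h4
  have h6 : (K.reflect m).eval (v' : PowerSeries κ) * ((v'⁻¹ : (PowerSeries κ)ˣ) : PowerSeries κ) ^ m = K.eval ((v'⁻¹ : (PowerSeries κ)ˣ) : PowerSeries κ) := h4
  rw [← h6]
  have h7 : V.eval (v' : PowerSeries κ) = 0 := hv
  rw [hV, hW] at h7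
  simp only [eval_add, eval_mul, eval_pow, eval_X, eval_C] at h7
  have h8 : (v' : PowerSeries κ) * ((v'⁻¹ : (PowerSeries κ)ˣ) : PowerSeries κ) = 1 := Units.mul_inv v'
  set u : PowerSeries κ := ((v'⁻¹ : (PowerSeries κ)ˣ) : PowerSeries κ) with hu
  set v : PowerSeries κ := (v' : PowerSeries κ) with hvdef
  set r : PowerSeries κ := (K.reflect m).eval v with hr
  have h9 : v ^ m * u ^ m = 1 := by rw [← mul_pow, h8, one_pow]
  have h10 : (v ^ (m + 2) + (v ^ (m + 1) + ε * r)) * u ^ (m + 2) = 0 := by rw [h7, zero_mul]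
  have h11 : (v ^ (m + 2) + (v ^ (m + 1) + ε * r)) * u ^ (m + 2) =
      (v ^ m * u ^ m) * (v * u) ^ 2 + (v ^ m * u ^ m) * (v * u) * u + ε * u ^ 2 * (r * u ^ m) := by
    ring
  rw [h11, h9, h8] at h10
  rw [← h10]
  ring

/-- Hensel's lemma for a simple zero -/
theorem hensP (g : Polynomial (PowerSeries κ)) (b : PowerSeries κ)
    (h0 : PowerSeries.constantCoeff (g.eval b) = 0)
    (h1 : PowerSeries.constantCoeff (g.derivative.eval b) ≠ 0) :
    ∃ y : PowerSeries κ, g.eval y = 0 ∧ PowerSeries.constantCoeff y = PowerSeries.constantCoeff b := by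
  have hu1 : IsUnit (g.derivative.eval b) := by
    rw [PowerSeries.isUnit_iff_constantCoeff, isUnit_iff_ne_zero]
    exact h1
  obtain ⟨w, hw⟩ := hu1
  obtain ⟨ε, hε⟩ : ∃ ε : PowerSeries κ, ε = g.eval b * ((w⁻¹ : (PowerSeries κ)ˣ) : PowerSeries κ) ^ 2 := ⟨_, rfl⟩
  have hε0 : PowerSeries.constantCoeff ε = 0 := by rw [hε, map_mul, h0, zero_mul]
  have hg : g.eval b = (g.derivative.eval b) ^ 2 * ε := by
    rw [hε, ← hw]
    have : (w : PowerSeries κ) * ((w⁻¹ : (PowerSeries κ)ˣ) : PowerSeries κ) = 1 := Units.mul_inv w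
    calc g.eval b = g.eval b * ((w : PowerSeries κ) * ((w⁻¹ : (PowerSeries κ)ˣ) : PowerSeries κ)) ^ 2 := by
          rw [this, one_pow, mul_one]
      _ = _ := by ring
  obtain ⟨K, hK⟩ := binomExpansion (g.map (C : PowerSeries κ →+* Polynomial (PowerSeries κ))) (C b)
    (X * C (g.derivative.eval b * ε))
  obtain ⟨u, hu⟩ := hen_unitP K hε0
  refine ⟨b + g.derivative.eval b * ε * u, ?_, ?_⟩
  · have h1 := congrArg (eval u) hK
    have h2 : ∀ q : Polynomial (PowerSeries κ), ∀ y : Polynomial (PowerSeries κ),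
        eval u (eval y (q.map (C : PowerSeries κ →+* Polynomial (PowerSeries κ)))) = eval (eval u y) q := by
      intro q y
      rw [eval_map, ← coe_evalRingHom, hom_eval₂]
      have h3 : (evalRingHom u).comp (C : PowerSeries κ →+* Polynomial (PowerSeries κ)) =
          RingHom.id (PowerSeries κ) := by
        ext a
        simp
      rw [h3]
      rfl
    rw [h2] at h1
    simp only [eval_add, eval_mul, eval_pow, eval_X, eval_C, derivative_map, h2] at h1
    have h3 : b + u * (g.derivative.eval b * ε) = b + g.derivative.eval b * ε * u := by ring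
    rw [h3] at h1
    rw [h1, hg]
    calc _ = (g.derivative.eval b) ^ 2 * ε * (1 + u + ε * u ^ 2 * K.eval u) := by ring
      _ = 0 := by rw [hu, mul_zero]
  · rw [map_add, map_mul, map_mul, hε0, mul_zero, zero_mul, add_zero]

end Pool.Agent.Q175.HB
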